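import Pool.Agent.Results.MP_cadcf7_co.LightFaces

/-!
# The optimal coefficient of `f_{557}` is `5` (plane graphs with `δ = 5`)

The combinatorial maps, the plane triangulation with 114 vertices and Borodin's inequality are in
the imported file.
-/

set_option autoImplicit false

namespace Pool.Agent.Results.MP_28dc4a_co.LightTriangles

open Pool.Agent.Results.MP_cadcf7_co.LightFaces

/-- The minimum degree is exactly `5`. -/
def DeltaFive (G : PlaneGraph) : Prop := (∀ d, 5 ≤ G.deg d) ∧ ∃ d, G.deg d = 5

/-- The number `c` is admissible (over the connected plane graphs with `δ = 5`). -/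
def Admissible (c : ℝ) : Prop := ∀ G : PlaneGraph, DeltaFive G →
  144 ≤ 18 * (G.f 5 5 5 : ℝ) + 9 * G.f 5 5 6 + c * G.f 5 5 7 + 4 * G.f 5 6 6

theorem exists_five : ∃ d, Example.G.deg d = 5 := by
  have h : Example.dg 8 = 5 := by decide +kernel
  exact ⟨(show Example.G.D from (8 : Fin 672)), (Example.deg_eq _).trans h⟩

/-- **Main theorem.** There is a connected plane graph with `δ = 5`, `f_{555} = f_{556} = 0` and
`f_{557} = f_{566} = 16`, and the least admissible value is `c* = 5`. -/
theorem result :
    (∃ G : PlaneGraph, DeltaFive G ∧ G.f 5 5 5 = 0 ∧ G.f 5 5 6 = 0 ∧ G.f 5 5 7 = 16 ∧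
      G.f 5 6 6 = 16) ∧
    (∀ c : ℝ, c < 5 → ¬ Admissible c) ∧ IsLeast {c : ℝ | Admissible c} 5 := by
  have hG : DeltaFive Example.G := ⟨Example.minDeg, exists_five⟩
  have hlow : ∀ c : ℝ, Admissible c → 5 ≤ c := by
    intro c hc
    have h := hc Example.G hG
    rw [Example.f555, Example.f556, Example.f557, Example.f566] at h
    push_cast at h
    linarith
  refine ⟨⟨Example.G, hG, Example.f555, Example.f556, Example.f557, Example.f566⟩,
    fun c hc h => absurd (hlow c h) (not_le.2 hc), ?_, fun c hc => hlow c hc⟩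
  intro G hG'
  have h := PlaneGraph.light_ge G hG'.1
  exact_mod_cast h

end Pool.Agent.Results.MP_28dc4a_co.LightTriangles
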